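import Mathlib
import Pool.Agent.R198.MOFCert

/-! The truncated Petersen graph on `Fin 30`, and what the certificate gives for it. -/

namespace R198.MOFC

open Finset

/-- The truncated Petersen graph: 10 triangles `{3v, 3v+1, 3v+2}` and 15 further edges joining
partners. -/
def G30 : SimpleGraph (Fin 30) where
  Adj x y := x ≠ y ∧ (x.val / 3 = y.val / 3 ∨ pr x.val = y.val)
  symm := ⟨by
    rintro x y ⟨h1, h2⟩
    refine ⟨h1.symm, ?_⟩
    rcases h2 with h2 | h2
    · exact Or.inl h2.symm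
    · right
      rw [← h2]
      exact (pr_facts x.val x.2).2.1⟩
  loopless := ⟨fun x h => h.1 rfl⟩

/-- Every orientation of the truncated Petersen graph has a forcing set with at most 14
vertices. The forcing process is given abstractly as any increasing sequence `C` of sets starting
above `S` that makes at least all the forces available at each time. -/
theorem final (D : Fin 30 → Fin 30 → Prop) (h1 : ∀ u v, D u v → G30.Adj u v)
    (h2 : ∀ u v, G30.Adj u v → D u v ∨ D v u) (h3 : ∀ u v, D u v → ¬ D v u) :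
    ∃ S : Finset (Fin 30), S.Nonempty ∧ S.card ≤ 14 ∧ ∀ C : ℕ → Set (Fin 30),
      (∀ x ∈ S, x ∈ C 0) → (∀ t, C t ⊆ C (t + 1)) →
      (∀ t u v, u ∈ C t → D u v → (∀ w, D u w → w ≠ v → w ∈ C t) → v ∈ C (t + 1)) →
      ∃ t, C t = Set.univ := by
  classical
  let DN : Nat → Nat → Prop := fun x y => ∃ (hx : x < 30) (hy : y < 30), D ⟨x, hx⟩ ⟨y, hy⟩
  have hO : Ori DN := by
    refine ⟨?_, ?_, ?_⟩
    · rintro x y ⟨hx, hy, hd⟩
      obtain ⟨ha, hb⟩ := h1 _ _ hd
      exact ⟨hx, hy, fun h => ha (Fin.ext h), hb⟩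
    · intro x y hx hy hne ha
      rcases h2 ⟨x, hx⟩ ⟨y, hy⟩ ⟨fun h => hne (Fin.mk.inj_iff.1 h), ha⟩ with h | h
      · exact Or.inl ⟨hx, hy, h⟩
      · exact Or.inr ⟨hy, hx, h⟩
    · rintro x y ⟨hx, hy, hd⟩ ⟨_, _, hd'⟩
      exact h3 _ _ hd hd'
  obtain ⟨S, hS, hc, hF⟩ := core DN hO
  let S0 : Finset (Fin 30) := univ.filter (fun x => x.val ∈ S)
  have hmem : ∀ x : Fin 30, x ∈ S0 ↔ x.val ∈ S := fun x => by simp [S0]
  refine ⟨S0, ?_, ?_, ?_⟩
  · have key : ∀ x, Frc DN S x → S.Nonempty := by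
      intro x hx
      induction hx with
      | init h => exact ⟨_, h⟩
      | step _ _ _ ih _ => exact ih
    obtain ⟨y, hy⟩ := key 0 (hF 0 (by norm_num))
    exact ⟨⟨y, mem_range.1 (hS hy)⟩, (hmem _).2 hy⟩
  · calc S0.card = (S0.map Fin.valEmbedding).card := (card_map _).symm
      _ ≤ S.card := by
          apply card_le_card
          intro y hy
          rw [mem_map] at hy
          obtain ⟨x, hx, rfl⟩ := hy
          exact (hmem x).1 hx
      _ ≤ 14 := hc
  · intro C hC0 hCm hCs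
    have mono : ∀ s t, s ≤ t → C s ⊆ C t := by
      intro s t hst
      induction hst with
      | refl => exact subset_rfl
      | step _ ih => exact ih.trans (hCm _)
    have bound : ∀ p : Fin 30 → Prop, (∀ x, p x → ∃ t, x ∈ C t) → ∃ T, ∀ x, p x → x ∈ C T := by
      intro p hp
      have : ∀ x, ∃ t, p x → x ∈ C t := by
        intro x
        by_cases hx : p x
        · obtain ⟨t, ht⟩ := hp x hx
          exact ⟨t, fun _ => ht⟩
        · exact ⟨0, fun h => absurd h hx⟩
      choose f hf using this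
      refine ⟨univ.sup f, fun x hx => mono _ _ (le_sup (f := f) (mem_univ x)) (hf x hx)⟩
    have key : ∀ x, Frc DN S x → ∀ hx : x < 30, ∃ t, (⟨x, hx⟩ : Fin 30) ∈ C t := by
      intro x hx
      induction hx with
      | init h =>
        intro hx
        exact ⟨0, hC0 _ ((hmem _).2 h)⟩
      | @step u v hu hd _ ihu ihw =>
        intro hv
        obtain ⟨hu30, _, hd'⟩ := hd
        obtain ⟨t1, ht1⟩ := ihu hu30
        obtain ⟨T, hT⟩ := bound (fun w => D ⟨u, hu30⟩ w ∧ w ≠ ⟨v, hv⟩) (by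
          rintro ⟨w, hw30⟩ ⟨hw, hwne⟩
          refine ihw w ⟨hu30, hw30, hw⟩ ?_ hw30
          intro h
          apply hwne
          exact Fin.ext h)
        refine ⟨max t1 T + 1, hCs _ ⟨u, hu30⟩ ⟨v, hv⟩ (mono _ _ (le_max_left _ _) ht1) hd' ?_⟩
        intro w hw hwne
        exact mono _ _ (le_max_right _ _) (hT w ⟨hw, hwne⟩)
    obtain ⟨T, hT⟩ := bound (fun _ => True) (fun x _ => key x.val (hF x.val x.2) x.2)
    exact ⟨T, Set.eq_univ_of_forall (fun x => hT x trivial)⟩

/-- the truncated Petersen graph has an orientation -/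
theorem exists_ori : ∃ D : Fin 30 → Fin 30 → Prop, (∀ u v, D u v → G30.Adj u v) ∧
    (∀ u v, G30.Adj u v → D u v ∨ D v u) ∧ (∀ u v, D u v → ¬ D v u) := by
  refine ⟨fun u v => G30.Adj u v ∧ u < v, fun u v h => h.1, ?_, ?_⟩
  · intro u v h
    rcases lt_or_gt_of_ne h.1 with h' | h'
    · exact Or.inl ⟨h, h'⟩
    · exact Or.inr ⟨h.symm, h'⟩
  · rintro u v ⟨_, h1⟩ ⟨_, h2⟩
    exact absurd (h1.trans h2) (lt_irrefl _)

end R198.MOFC
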