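import Mathlib
import Pool.Agent.R198.MOFCore

namespace R198.MOFC

open Finset

theorem Ori.iff_not {D : Nat → Nat → Prop} (hD : Ori D) {x y : Nat} (hx : x < 30) (hy : y < 30)
    (hne : x ≠ y) (ha : x / 3 = y / 3 ∨ pr x = y) : D y x ↔ ¬ D x y := by
  constructor
  · intro h h'
    exact hD.asym _ _ h h'
  · intro h
    rcases hD.tot x y hx hy hne ha with h1 | h1
    · exact absurd h1 h
    · exact h1

open Classical in
/-- code of the tournament on the block `v` -/
noncomputable def tc (D : Nat → Nat → Prop) (v : Nat) : Nat :=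
  bi (decide (D (3 * v) (3 * v + 1))) 1 ||| bi (decide (D (3 * v) (3 * v + 2))) 2 |||
    bi (decide (D (3 * v + 1) (3 * v + 2))) 4

theorem bits3 : ∀ a b c : Bool, (bi a 1 ||| bi b 2 ||| bi c 4) < 8 ∧
    (bi a 1 ||| bi b 2 ||| bi c 4).testBit 0 = a ∧ (bi a 1 ||| bi b 2 ||| bi c 4).testBit 1 = b ∧
    (bi a 1 ||| bi b 2 ||| bi c 4).testBit 2 = c := by decide

theorem outm_tab : ∀ a b c : Bool, ∀ i j : Fin 3,
    (outm (bi a 1 ||| bi b 2 ||| bi c 4) i).testBit j =
      (if i = 0 ∧ j = 1 then a else if i = 1 ∧ j = 0 then !a else if i = 0 ∧ j = 2 then b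
        else if i = 2 ∧ j = 0 then !b else if i = 1 ∧ j = 2 then c else if i = 2 ∧ j = 1 then !c
        else false) := by decide

theorem tc_lt (D : Nat → Nat → Prop) (v : Nat) : tc D v < 8 := (bits3 _ _ _).1

open Classical in
theorem outm_iff {D : Nat → Nat → Prop} (hD : Ori D) {v : Nat} (hv : v < 10) (i j : Fin 3)
    (hij : i ≠ j) : (outm (tc D v) i).testBit j = true ↔ D (3 * v + i) (3 * v + j) := by
  have key := outm_tab (decide (D (3 * v) (3 * v + 1))) (decide (D (3 * v) (3 * v + 2)))
    (decide (D (3 * v + 1) (3 * v + 2))) i j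
  rw [tc, key]
  have h10 := hD.iff_not (x := 3 * v) (y := 3 * v + 1) (by omega) (by omega) (by omega)
    (Or.inl (by omega))
  have h20 := hD.iff_not (x := 3 * v) (y := 3 * v + 2) (by omega) (by omega) (by omega)
    (Or.inl (by omega))
  have h21 := hD.iff_not (x := 3 * v + 1) (y := 3 * v + 2) (by omega) (by omega) (by omega)
    (Or.inl (by omega))
  fin_cases i <;> fin_cases j <;> simp_all

open Classical in
theorem outm_self (D : Nat → Nat → Prop) (v : Nat) (i : Fin 3) :
    (outm (tc D v) i).testBit i = false := by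
  have key := outm_tab (decide (D (3 * v) (3 * v + 1))) (decide (D (3 * v) (3 * v + 2)))
    (decide (D (3 * v + 1) (3 * v + 2))) i i
  rw [tc, key]
  fin_cases i <;> simp

theorem popc3_card : ∀ A : Fin 8, ((range 3).filter (fun i => A.val.testBit i = true)).card =
    popc3 A := by decide

theorem block_step {D : Nat → Nat → Prop} (hD : Ori D) {S : Finset Nat} (hS : S ⊆ range 30)
    {v : Nat} (hv : v < 10) {s b : Nat} (hs : s < 8) (hb : b < 8)
    (hsg : ∀ i < 3, (s.testBit i = true ↔ D (3 * v + i) (pr (3 * v + i))))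
    (hbd : ∀ i < 3, b.testBit i = true → ∀ y < 30, y / 3 = pr (3 * v + i) / 3 → Frc D S y) :
    ∃ S' : Finset Nat, S' ⊆ range 30 ∧ S ⊆ S' ∧ S'.card ≤ S.card + loc1 (tc D v) s b ∧
      ∀ y < 30, y / 3 = v → Frc D S' y := by
  have ht := tc_lt D v
  obtain ⟨hA8, hAc, hfin⟩ := loc1_ok' ⟨tc D v, ht⟩ ⟨s, hs⟩ ⟨b, hb⟩
  simp only at hA8 hAc hfin
  obtain ⟨hB8, hF8, hBF⟩ := and8 ⟨s, hs⟩ ⟨b, hb⟩
  simp only at hB8 hF8 hBF
  set A := locA (tc D v) s b with hAdef
  set B := s &&& (7 ^^^ b) with hBdef
  set F := (7 ^^^ s) &&& b with hFdef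
  let S' : Finset Nat := S ∪ ((range 3).filter (fun i => A.testBit i = true)).image (fun i : Nat => 3 * v + i)
  have hSS' : S ⊆ S' := subset_union_left
  refine ⟨S', ?_, hSS', ?_, ?_⟩
  · apply union_subset hS
    intro x hx
    simp only [mem_image, mem_filter, mem_range] at hx ⊢
    obtain ⟨i, ⟨hi, _⟩, rfl⟩ := hx
    omega
  · calc S'.card ≤ S.card + (((range 3).filter (fun i => A.testBit i = true)).image
          (fun i : Nat => 3 * v + i)).card := card_union_le _ _
      _ ≤ S.card + ((range 3).filter (fun i => A.testBit i = true)).card := by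
          exact Nat.add_le_add_left Finset.card_image_le _
      _ = S.card + popc3 A := by rw [popc3_card ⟨A, hA8⟩]
      _ ≤ S.card + loc1 (tc D v) s b := Nat.add_le_add_left hAc _
  · -- the closure
    let Q : Nat → Prop := fun C => C < 8 ∧ ∀ i : Fin 3, C.testBit i = true → Frc D S' (3 * v + i)
    have hvi : ∀ i : Fin 3, 3 * v + i.val < 30 := fun i => by have := i.2; omega
    have hdiv : ∀ i : Fin 3, (3 * v + i.val) / 3 = v := fun i => by have := i.2; omega
    have hbase : Q (A ||| F) := by
      refine ⟨Nat.or_lt_two_pow (n := 3) hA8 hF8, ?_⟩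
      intro i hi
      rw [Nat.testBit_or, Bool.or_eq_true] at hi
      rcases hi with hi | hi
      · apply Frc.init
        apply mem_union_right
        rw [mem_image]
        exact ⟨i, by rw [mem_filter, mem_range]; exact ⟨i.2, hi⟩, rfl⟩
      · obtain ⟨hsi, hbi⟩ := ((hBF i).2).1 hi
        have hnd : ¬ D (3 * v + i) (pr (3 * v + i)) := by
          intro h
          have := (hsg i i.2).2 h
          rw [hsi] at this
          exact absurd this (by simp)
        obtain ⟨hp1, hp2, hp3⟩ := pr_facts (3 * v + i) (hvi i)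
        have hne : 3 * v + i.val ≠ pr (3 * v + i) := by
          intro h
          apply hp3
          rw [← h]
        have hD1 : D (pr (3 * v + i)) (3 * v + i) := by
          rw [hD.iff_not (hvi i) hp1 hne (Or.inr rfl)]
          exact hnd
        have hdone := hbd i i.2 hbi
        refine Frc.step ((hdone _ hp1 rfl).mono hSS') hD1 ?_
        intro w hw hwne
        obtain ⟨_, hw2, hw3, hw4⟩ := hD.supp _ _ hw
        rcases hw4 with hw4 | hw4
        · exact (hdone w hw2 hw4.symm).mono hSS'
        · rw [hp2] at hw4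
          exact absurd hw4.symm hwne
    have hstep : ∀ C, Q C → Q (stepm (tc D v) B C) := by
      intro C hC
      obtain ⟨h8, hall⟩ := stepm_ok' ⟨tc D v, ht⟩ ⟨B, hB8⟩ ⟨C, hC.1⟩
      simp only at h8 hall
      refine ⟨h8, ?_⟩
      intro j hj
      rcases hall j hj with h | ⟨i, hi1, hi2, hi3, hi4⟩
      · exact hC.2 j h
      · have hij : i ≠ j := by
          rintro rfl
          rw [outm_self] at hi3
          exact absurd hi3 (by simp)
        have hDij := (outm_iff hD hv i j hij).1 hi3
        refine Frc.step (hC.2 i hi1) hDij ?_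
        intro w hw hwne
        obtain ⟨_, hw2, hw3, hw4⟩ := hD.supp _ _ hw
        rcases hw4 with hw4 | hw4
        · rw [hdiv i] at hw4
          have hwj : w = 3 * v + w % 3 := by omega
          let j' : Fin 3 := ⟨w % 3, Nat.mod_lt _ (by norm_num)⟩
          have hwj' : w = 3 * v + j'.val := hwj
          have hij' : i ≠ j' := by
            intro h
            apply hw3
            rw [hwj', ← h]
          have hjj' : j' ≠ j := by
            intro h
            apply hwne
            rw [hwj', h]
          rw [hwj'] at hw ⊢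
          exact hC.2 j' (hi4 j' ((outm_iff hD hv i j' hij').2 hw) hjj')
        · have hsi : s.testBit i = true := (hsg i i.2).2 (by rw [hw4]; exact hw)
          have hbi : b.testBit i = true := by
            by_contra hcon
            have hbf : b.testBit i = false := by simpa using hcon
            have := ((hBF i).1).2 ⟨hsi, hbf⟩
            rw [hi2] at this
            exact absurd this (by simp)
          exact (hbd i i.2 hbi w hw2 (by rw [hw4])).mono hSS'
    have hfinal := hstep _ (hstep _ (hstep _ hbase))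
    rw [hfin] at hfinal
    intro y hy hyv
    have hyj : y = 3 * v + y % 3 := by omega
    let j' : Fin 3 := ⟨y % 3, Nat.mod_lt _ (by norm_num)⟩
    have h7 : ∀ j : Fin 3, (7 : Nat).testBit j = true := by decide
    have := hfinal.2 j' (h7 j')
    rw [hyj]
    exact this

end R198.MOFC
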