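import Mathlib
import Pool.Agent.R198.MOFSound

namespace R198.MOFC

open Finset

/-! ### checking one order of the blocks -/

def bcost (KI WI SP v M : Nat) : Nat :=
  loc3 ((KI >>> (3 * v)) &&& 7) ((WI >>> (3 * v)) &&& 7) ((SP >>> (3 * v)) &&& 7)
    ((M >>> (3 * v)) &&& 7)

def run (KI WI SP : Nat) : Nat → Nat → Nat → Nat → Bool
  | 0, _, M, acc => Nat.beq M 1073741823 && Nat.ble acc 14
  | n + 1, o, M, acc =>
      run KI WI SP n (o / 10) (M ||| pv (o % 10)) (acc + bcost KI WI SP (o % 10) M)

def SatP (D : Nat → Nat → Prop) (KP SP : Nat) : Prop :=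
  ∀ x < 30, KP.testBit x = true → (SP.testBit x = true ↔ D x (pr x))

def SatI (D : Nat → Nat → Prop) (KI WI : Nat) : Prop :=
  ∀ v < 10, ∀ j < 3, KI.testBit (3 * v + j) = true →
    WI.testBit (3 * v + j) = (tc D v).testBit j

theorem seven_bit (X v i : Nat) (hi : i < 3) :
    ((X >>> (3 * v)) &&& 7).testBit i = X.testBit (3 * v + i) := by
  rw [Nat.testBit_and, Nat.testBit_shiftRight]
  have : ∀ i < 3, (7 : Nat).testBit i = true := by decide
  rw [this i hi, Bool.and_true]

theorem seven_lt (X v : Nat) : ((X >>> (3 * v)) &&& 7) < 8 :=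
  lt_of_le_of_lt Nat.and_le_right (by norm_num)

theorem bcost_ge {D : Nat → Nat → Prop} {KI WI SP M v : Nat} (hv : v < 10)
    (hI : SatI D KI WI) :
    loc1 (tc D v) ((SP >>> (3 * v)) &&& 7) ((M >>> (3 * v)) &&& 7) ≤ bcost KI WI SP v M := by
  unfold bcost
  refine loc3_ok' ⟨_, seven_lt KI v⟩ ⟨_, seven_lt WI v⟩ ⟨_, tc_lt D v⟩ ?_ ⟨_, seven_lt SP v⟩
    ⟨_, seven_lt M v⟩
  apply Nat.eq_of_testBit_eq
  intro i
  simp only [Nat.testBit_and]
  by_cases hi : i < 3
  · have h7 : ∀ i < 3, (7 : Nat).testBit i = true := by decide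
    simp only [Nat.testBit_shiftRight, h7 i hi, Bool.and_true]
    by_cases hk : KI.testBit (3 * v + i) = true
    · rw [hI v hv i hi hk]
    · have : KI.testBit (3 * v + i) = false := by simpa using hk
      rw [this]; simp
  · have h7 : (7 : Nat).testBit i = false := by
      apply Nat.testBit_lt_two_pow
      calc (7 : Nat) < 2 ^ 3 := by norm_num
        _ ≤ 2 ^ i := Nat.pow_le_pow_right (by norm_num) (by omega)
    simp [h7]

theorem full_bit : ∀ x < 30, (1073741823 : Nat).testBit x = true := by decide +kernel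

theorem run_sound {D : Nat → Nat → Prop} (hD : Ori D) {KI WI SP : Nat}
    (hP : ∀ x < 30, (SP.testBit x = true ↔ D x (pr x))) (hI : SatI D KI WI) :
    ∀ (n o M acc : Nat) (S : Finset Nat), S ⊆ range 30 → S.card ≤ acc →
      (∀ x < 30, M.testBit x = true → ∀ y < 30, y / 3 = pr x / 3 → Frc D S y) →
      run KI WI SP n o M acc = true → P D := by
  intro n
  induction n with
  | zero =>
    intro o M acc S hS hc hM hr
    unfold run at hr
    rw [Bool.and_eq_true] at hr
    have h1 : M = 1073741823 := Nat.eq_of_beq_eq_true hr.1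
    have h2 : acc ≤ 14 := Nat.le_of_ble_eq_true hr.2
    refine ⟨S, hS, le_trans hc h2, ?_⟩
    intro y hy
    obtain ⟨hp1, hp2, _⟩ := pr_facts y hy
    refine hM (pr y) hp1 ?_ y hy ?_
    · rw [h1]; exact full_bit _ hp1
    · rw [hp2]
  | succ n ih =>
    intro o M acc S hS hc hM hr
    unfold run at hr
    have hv : o % 10 < 10 := Nat.mod_lt _ (by norm_num)
    set v := o % 10 with hvdef
    obtain ⟨S', hS'r, hSS', hS'c, hS'F⟩ := block_step hD hS hv (seven_lt SP v) (seven_lt M v)
      (fun i hi => by
        rw [seven_bit SP v i hi]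
        exact hP (3 * v + i) (by omega))
      (fun i hi hbi => by
        rw [seven_bit M v i hi] at hbi
        exact hM (3 * v + i) (by omega) hbi)
    refine ih _ _ _ S' hS'r ?_ ?_ hr
    · calc S'.card ≤ S.card + loc1 (tc D v) ((SP >>> (3 * v)) &&& 7) ((M >>> (3 * v)) &&& 7) :=
            hS'c
        _ ≤ acc + bcost KI WI SP v M := Nat.add_le_add hc (bcost_ge hv hI)
    · intro x hx hb y hy hxy
      rw [Nat.testBit_or, Bool.or_eq_true] at hb
      rcases hb with hb | hb
      · exact (hM x hx hb y hy hxy).mono hSS'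
      · have := (pv_facts v hv x hx).1 hb
        exact hS'F y hy (by rw [hxy, this])

/-! ### symmetries -/

def gv (g x : Nat) : Nat := (g >>> (5 * x)) &&& 31

def vone (g h x : Nat) : Bool :=
  Nat.ble (gv g x) 29 && Nat.ble (gv h x) 29 && Nat.beq (gv h (gv g x)) x &&
    Nat.beq (gv g (gv h x)) x && Nat.beq (pr (gv g x)) (gv g (pr x)) &&
    Nat.beq (gv g x / 3) (gv g (3 * (x / 3)) / 3) && Nat.beq (gv h x / 3) (gv h (3 * (x / 3)) / 3)

def vall (g h : Nat) : Nat → Bool
  | 0 => true
  | n + 1 => vone g h n && vall g h n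

theorem vall_sound {g h : Nat} : ∀ {n : Nat}, vall g h n = true → ∀ x < n, vone g h x = true := by
  intro n
  induction n with
  | zero => intro _ x hx; omega
  | succ n ih =>
    intro hv x hx
    unfold vall at hv
    rw [Bool.and_eq_true] at hv
    rcases Nat.lt_succ_iff_lt_or_eq.1 hx with h1 | h1
    · exact ih hv.2 x h1
    · rw [h1]; exact hv.1

/-- the transported orientation -/
def tr (g : Nat) (D : Nat → Nat → Prop) : Nat → Nat → Prop :=
  fun x y => x < 30 ∧ y < 30 ∧ D (gv g x) (gv g y)

structure VG (g h : Nat) : Prop where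
  g30 : ∀ x < 30, gv g x < 30
  h30 : ∀ x < 30, gv h x < 30
  hg : ∀ x < 30, gv h (gv g x) = x
  gh : ∀ x < 30, gv g (gv h x) = x
  pg : ∀ x < 30, pr (gv g x) = gv g (pr x)
  bg : ∀ x < 30, gv g x / 3 = gv g (3 * (x / 3)) / 3
  bh : ∀ x < 30, gv h x / 3 = gv h (3 * (x / 3)) / 3

theorem VG.of {g h : Nat} (hv : vall g h 30 = true) : VG g h := by
  have H : ∀ x < 30, (gv g x ≤ 29 ∧ gv h x ≤ 29 ∧ gv h (gv g x) = x ∧ gv g (gv h x) = x ∧
      pr (gv g x) = gv g (pr x) ∧ gv g x / 3 = gv g (3 * (x / 3)) / 3 ∧
      gv h x / 3 = gv h (3 * (x / 3)) / 3) := by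
    intro x hx
    have := vall_sound hv x hx
    unfold vone at this
    simp only [Bool.and_eq_true] at this
    obtain ⟨⟨⟨⟨⟨⟨h1, h2⟩, h3⟩, h4⟩, h5⟩, h6⟩, h7⟩ := this
    exact ⟨Nat.le_of_ble_eq_true h1, Nat.le_of_ble_eq_true h2, Nat.eq_of_beq_eq_true h3,
      Nat.eq_of_beq_eq_true h4, Nat.eq_of_beq_eq_true h5, Nat.eq_of_beq_eq_true h6,
      Nat.eq_of_beq_eq_true h7⟩
  exact ⟨fun x hx => by have := (H x hx).1; omega, fun x hx => by have := (H x hx).2.1; omega,
    fun x hx => (H x hx).2.2.1, fun x hx => (H x hx).2.2.2.1, fun x hx => (H x hx).2.2.2.2.1,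
    fun x hx => (H x hx).2.2.2.2.2.1, fun x hx => (H x hx).2.2.2.2.2.2⟩

theorem tr_ori {g h : Nat} (hV : VG g h) {D : Nat → Nat → Prop} (hD : Ori D) : Ori (tr g D) := by
  have inj : ∀ x < 30, ∀ y < 30, gv g x = gv g y → x = y := by
    intro x hx y hy hxy
    rw [← hV.hg x hx, ← hV.hg y hy, hxy]
  refine ⟨?_, ?_, ?_⟩
  · rintro x y ⟨hx, hy, hd⟩
    obtain ⟨_, _, h3, h4⟩ := hD.supp _ _ hd
    refine ⟨hx, hy, fun h => h3 (by rw [h]), ?_⟩
    rcases h4 with h4 | h4
    · left
      have e1 := hV.bh (gv g x) (hV.g30 x hx)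
      have e2 := hV.bh (gv g y) (hV.g30 y hy)
      rw [hV.hg x hx] at e1
      rw [hV.hg y hy] at e2
      rw [e1, e2, h4]
    · right
      rw [hV.pg x hx] at h4
      exact inj _ (pr_facts x hx).1 _ hy h4
  · intro x y hx hy hne ha
    have h1 : gv g x ≠ gv g y := fun h => hne (inj x hx y hy h)
    have h2 : gv g x / 3 = gv g y / 3 ∨ pr (gv g x) = gv g y := by
      rcases ha with ha | ha
      · left
        rw [hV.bg x hx, hV.bg y hy, ha]
      · right
        rw [hV.pg x hx, ha]
    rcases hD.tot _ _ (hV.g30 x hx) (hV.g30 y hy) h1 h2 with h | h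
    · exact Or.inl ⟨hx, hy, h⟩
    · exact Or.inr ⟨hy, hx, h⟩
  · rintro x y ⟨_, _, hd⟩ ⟨_, _, hd'⟩
    exact hD.asym _ _ hd hd'

theorem tr_P {g h : Nat} (hV : VG g h) {D : Nat → Nat → Prop} (hD : Ori D) (hP : P (tr g D)) :
    P D := by
  obtain ⟨S, hS, hc, hF⟩ := hP
  refine ⟨S.image (gv g), ?_, le_trans card_image_le hc, ?_⟩
  · intro y hy
    rw [mem_image] at hy
    obtain ⟨x, hx, rfl⟩ := hy
    exact mem_range.2 (hV.g30 x (mem_range.1 (hS hx)))
  · have key : ∀ x, Frc (tr g D) S x → x < 30 → Frc D (S.image (gv g)) (gv g x) := by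
      intro x hx
      induction hx with
      | init h1 => intro _; exact Frc.init (mem_image_of_mem _ h1)
      | @step u v h1 h2 h3 ih1 ih2 =>
        intro hv30
        obtain ⟨hu, hv', hd⟩ := h2
        refine Frc.step (ih1 hu) hd ?_
        intro w hw hwne
        obtain ⟨_, hw2, _, _⟩ := hD.supp _ _ hw
        have e := hV.gh w hw2
        rw [← e]
        have hw' : tr g D u (gv h w) := ⟨hu, hV.h30 w hw2, by rw [e]; exact hw⟩
        refine ih2 (gv h w) hw' ?_ (hV.h30 w hw2)
        intro hcon
        apply hwne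
        rw [← e, hcon]
    intro y hy
    rw [← hV.gh y hy]
    exact key _ (hF _ (hV.h30 y hy)) (hV.h30 y hy)

/-! ### codes -/

def cd (f : Nat → Bool) : Nat → Nat → Nat
  | 0, _ => 0
  | n + 1, i => bi (f i) (2 ^ n) + cd f n (i + 1)

theorem cd_lt (f : Nat → Bool) : ∀ n i, cd f n i < 2 ^ n := by
  intro n
  induction n with
  | zero => intro i; simp [cd]
  | succ n ih =>
    intro i
    unfold cd
    have h1 : bi (f i) (2 ^ n) ≤ 2 ^ n := by
      unfold bi; split <;> simp
    have := ih (i + 1)
    rw [pow_succ]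
    omega

def symLess (g KP SP : Nat) : Nat → Nat → Bool
  | 0, _ => false
  | n + 1, i =>
    KP.testBit (ex i) && (KP.testBit (gv g (ex i)) &&
      (match SP.testBit (gv g (ex i)), SP.testBit (ex i) with
        | true, true => symLess g KP SP n (i + 1)
        | false, false => symLess g KP SP n (i + 1)
        | false, true => true
        | true, false => false))

open Classical in
noncomputable def dbit (D : Nat → Nat → Prop) (i : Nat) : Bool := decide (D (ex i) (pr (ex i)))

noncomputable def code (D : Nat → Nat → Prop) : Nat := cd (dbit D) 15 0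

theorem ex_lt : ∀ i < 15, ex i < 30 := by decide

open Classical in
theorem symLess_sound {D : Nat → Nat → Prop} {g h KP SP : Nat} (hV : VG g h)
    (hP : SatP D KP SP) : ∀ n i, n + i ≤ 15 → symLess g KP SP n i = true →
      cd (dbit (tr g D)) n i < cd (dbit D) n i := by
  intro n
  induction n with
  | zero => intro i _ hs; simp [symLess] at hs
  | succ n ih =>
    intro i hi hs
    unfold symLess at hs
    rw [Bool.and_eq_true, Bool.and_eq_true] at hs
    obtain ⟨h1, h2, h3⟩ := hs
    have hx : ex i < 30 := ex_lt i (by omega)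
    have e1 := hP (ex i) hx h1
    have e2 := hP (gv g (ex i)) (hV.g30 _ hx) h2
    have b1 : dbit D i = SP.testBit (ex i) := by
      unfold dbit
      rw [Bool.eq_iff_iff, decide_eq_true_iff]
      exact e1.symm
    have b2 : dbit (tr g D) i = SP.testBit (gv g (ex i)) := by
      unfold dbit
      rw [Bool.eq_iff_iff, decide_eq_true_iff, e2, hV.pg _ hx]
      unfold tr
      exact ⟨fun h => h.2.2, fun h => ⟨hx, (pr_facts _ hx).1, h⟩⟩
    unfold cd
    rw [b1, b2]
    have hlt := cd_lt (dbit (tr g D)) n (i + 1)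
    cases hA : SP.testBit (gv g (ex i)) <;> cases hB : SP.testBit (ex i) <;>
      rw [hA, hB] at h3
    · have := ih (i + 1) (by omega) h3
      omega
    · simp only [bi]
      simp
      omega
    · exact absurd h3 (by simp)
    · have := ih (i + 1) (by omega) h3
      omega

/-! ### the tree -/

inductive T
  | B (k : Nat) (l r : T)
  | S (g h : Nat)
  | L (o : Nat)

def chk : T → Nat → Nat → Nat → Nat → Bool
  | .B k l r, KP, SP, KI, WI =>
    match Nat.ble k 29 with
    | true =>
      (!(SP.testBit k) && !(SP.testBit (pr k))) &&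
      (chk l (KP ||| (1 <<< k) ||| (1 <<< pr k)) (SP ||| (1 <<< pr k)) KI WI &&
        chk r (KP ||| (1 <<< k) ||| (1 <<< pr k)) (SP ||| (1 <<< k)) KI WI)
    | false =>
      (Nat.ble k 59 && !(WI.testBit (k - 30))) &&
      (chk l KP SP (KI ||| (1 <<< (k - 30))) WI &&
        chk r KP SP (KI ||| (1 <<< (k - 30))) (WI ||| (1 <<< (k - 30))))
  | .S g h, KP, SP, _, _ => vall g h 30 && symLess g KP SP 15 0
  | .L o, KP, SP, KI, WI => Nat.beq KP 1073741823 && run KI WI SP 10 o 0 0

theorem testBit_or_shift (X k z : Nat) :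
    (X ||| (1 <<< k)).testBit z = (X.testBit z || decide (k = z)) := by
  rw [Nat.testBit_or, Nat.one_shiftLeft, Nat.testBit_two_pow]

theorem chk_sound : ∀ (t : T) (KP SP KI WI : Nat), chk t KP SP KI WI = true →
    ∀ D : Nat → Nat → Prop, Ori D → SatP D KP SP → SatI D KI WI →
      (∀ D' : Nat → Nat → Prop, Ori D' → code D' < code D → P D') → P D := by
  intro t
  induction t with
  | L o =>
    intro KP SP KI WI hc D hD hP hI _
    unfold chk at hc
    rw [Bool.and_eq_true] at hc
    have h1 : KP = 1073741823 := Nat.eq_of_beq_eq_true hc.1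
    refine run_sound hD (fun x hx => hP x hx (by rw [h1]; exact full_bit x hx)) hI 10 o 0 0 ∅
      (by simp) (by simp) ?_ hc.2
    intro x _ hb
    simp at hb
  | S g h =>
    intro KP SP KI WI hc D hD hP hI ih
    unfold chk at hc
    rw [Bool.and_eq_true] at hc
    have hV := VG.of hc.1
    have hlt := symLess_sound hV hP 15 0 (by norm_num) hc.2
    exact tr_P hV hD (ih _ (tr_ori hV hD) hlt)
  | B k l r ihl ihr =>
    intro KP SP KI WI hc D hD hP hI ih
    unfold chk at hc
    cases hk : Nat.ble k 29 with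
    | true =>
      rw [hk] at hc
      simp only [Bool.and_eq_true, Bool.not_eq_true'] at hc
      obtain ⟨⟨h1, h2⟩, h3, h4⟩ := hc
      have hk30 : k < 30 := by have := Nat.le_of_ble_eq_true hk; omega
      obtain ⟨hp1, hp2, hp3⟩ := pr_facts k hk30
      have hne : k ≠ pr k := by
        intro h
        apply hp3
        rw [← h]
      have hiff := hD.iff_not hk30 hp1 hne (Or.inr rfl)
      by_cases hd : D k (pr k)
      · refine ihr _ _ _ _ h4 D hD ?_ hI ih
        intro z hz hzb
        rw [testBit_or_shift, testBit_or_shift] at hzb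
        rw [testBit_or_shift]
        by_cases e1 : k = z
        · subst e1
          simp [hd]
        · by_cases e2 : pr k = z
          · subst e2
            have : ¬ D (pr k) k := by
              rw [hiff]; exact fun h => h hd
            rw [hp2]
            simp [e1, h2, this]
          · simp only [e1, e2, decide_false, Bool.or_false] at hzb ⊢
            exact hP z hz hzb
      · refine ihl _ _ _ _ h3 D hD ?_ hI ih
        intro z hz hzb
        rw [testBit_or_shift, testBit_or_shift] at hzb
        rw [testBit_or_shift]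
        by_cases e1 : k = z
        · subst e1
          have : ¬ (pr k = k) := fun h => hne h.symm
          simp [hd, h1, this]
        · by_cases e2 : pr k = z
          · subst e2
            rw [hp2]
            simp [hiff.2 hd]
          · simp only [e1, e2, decide_false, Bool.or_false] at hzb ⊢
            exact hP z hz hzb
    | false =>
      rw [hk] at hc
      simp only [Bool.and_eq_true, Bool.not_eq_true'] at hc
      obtain ⟨⟨h1, h2⟩, h3, h4⟩ := hc
      have hk60 : k < 60 := by have := Nat.le_of_ble_eq_true h1; omega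
      have hk30 : 30 ≤ k := by
        by_contra hcon
        have : Nat.ble k 29 = true := Nat.ble_eq_true_of_le (by omega)
        rw [hk] at this
        exact absurd this (by simp)
      have hsplit : ∀ b : Bool, (tc D ((k - 30) / 3)).testBit ((k - 30) % 3) = b →
          ∀ WI', (∀ z, WI'.testBit z = (WI.testBit z || (b && decide (k - 30 = z)))) →
          SatI D (KI ||| (1 <<< (k - 30))) WI' := by
        intro b hb WI' hW' v hv j hj hkb
        rw [testBit_or_shift] at hkb
        rw [hW']
        by_cases e : k - 30 = 3 * v + j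
        · have ev : (k - 30) / 3 = v := by omega
          have ej : (k - 30) % 3 = j := by omega
          rw [ev, ej] at hb
          rw [← e, h2, hb]
          simp
        · simp only [e, decide_false, Bool.or_false, Bool.and_false] at hkb ⊢
          exact hI v hv j hj hkb
      cases hb : (tc D ((k - 30) / 3)).testBit ((k - 30) % 3) with
      | true =>
        refine ihr _ _ _ _ h4 D hD hP ?_ ih
        refine hsplit true hb _ (fun z => ?_)
        rw [testBit_or_shift]; simp
      | false =>
        refine ihl _ _ _ _ h3 D hD hP ?_ ih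
        refine hsplit false hb _ (fun z => ?_)
        simp

theorem core_of {t : T} (ht : chk t 0 0 0 0 = true) (D : Nat → Nat → Prop) (hD : Ori D) : P D := by
  have key : ∀ n, ∀ D : Nat → Nat → Prop, Ori D → code D = n → P D := by
    intro n
    induction n using Nat.strong_induction_on with
    | _ n ih =>
      intro D hD hn
      refine chk_sound t 0 0 0 0 ht D hD ?_ ?_ ?_
      · intro x _ h; simp at h
      · intro v _ j _ h; simp at h
      · intro D' hD' hlt
        exact ih (code D') (by omega) D' hD' rfl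
  exact key _ D hD rfl

end R198.MOFC
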